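import Mathlib
import Pool.Agent.J4H99.RL.Fin

/-!
# Linear-size reconstructible sets just above the giant component threshold

The answer to Q1 is yes: for every `ε > 0` there is `c > 0` such that for every set of `n` distinct points
`x 0, …, x (n-1)` of the line and `p = (1 + ε) / n`, with high probability the pairs of `G(n, p)` determine a set of
at least `c n` of the points up to isometry.
-/

set_option autoImplicit false

namespace Pool.Agent.Results.MP_730fda_pr.Supercritical

open scoped Classical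

/-- `U` is reconstructible (as in the problem): every placement `f` of the `n` points `x 0, …, x (n-1)` at distinct
reals which keeps the distances of the pairs of `G` is given on `U` by an isometry `y ↦ s y + t`, `s = ±1`, of the
line. -/
def Reconstructible {n : ℕ} (x : Fin n → ℝ) (G : SimpleGraph (Fin n)) (U : Finset (Fin n)) : Prop :=
  ∀ f : Fin n → ℝ, Function.Injective f → (∀ a b, G.Adj a b → |f a - f b| = |x a - x b|) →
    ∃ s t : ℝ, (s = 1 ∨ s = -1) ∧ ∀ u ∈ U, f u = s * x u + t

/-- The same for all maps `f`, injective or not (a stronger property of `U`). -/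
def StronglyReconstructible {n : ℕ} (x : Fin n → ℝ) (G : SimpleGraph (Fin n)) (U : Finset (Fin n)) : Prop :=
  ∀ f : Fin n → ℝ, (∀ a b, G.Adj a b → |f a - f b| = |x a - x b|) →
    ∃ s t : ℝ, (s = 1 ∨ s = -1) ∧ ∀ u ∈ U, f u = s * x u + t

/-- The probability that the binomial random graph `G(n,p)` has the property `A`. -/
noncomputable def prob (n : ℕ) (p : ℝ) (A : SimpleGraph (Fin n) → Prop) : ℝ :=
  ∑ G : SimpleGraph (Fin n),
    if A G then p ^ G.edgeSet.ncard * (1 - p) ^ (n.choose 2 - G.edgeSet.ncard) else 0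

/-- For every `ε > 0` there is `c > 0` such that:
(1) for all large `n`, all `(1 + ε) / n ≤ p ≤ 1` and all sets of `n` points, the probability that there is a
(strongly) reconstructible set of at least `c n` points is at least `1 - η` (uniformly in the points and in `p`);
(2) (Q1 of the problem) for every sequence of sets of `n` points and `p = (1 + ε) / n` the probability that there
is a reconstructible set of at least `c n` points tends to `1`. -/
theorem result (ε : ℝ) (hε : 0 < ε) : ∃ c : ℝ, 0 < c ∧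
    (∀ η : ℝ, 0 < η → ∃ N : ℕ, ∀ n ≥ N, ∀ p : ℝ, (1 + ε) / n ≤ p → p ≤ 1 →
      ∀ x : Fin n → ℝ, Function.Injective x →
        1 - η ≤ prob n p (fun G => ∃ U : Finset (Fin n), c * n ≤ U.card ∧ StronglyReconstructible x G U)) ∧
    (∀ x : ∀ n : ℕ, Fin n → ℝ, (∀ n, Function.Injective (x n)) →
      Filter.Tendsto (fun n : ℕ => prob n ((1 + ε) / n) (fun G =>
        ∃ U : Finset (Fin n), c * n ≤ U.card ∧ Reconstructible (x n) G U)) Filter.atTop (nhds 1)) := by
  obtain ⟨c, hc, h⟩ := J4H99.RL.main_small (min ε (1 / 2)) (lt_min hε (by norm_num)) (min_le_right _ _)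
  have key : ∀ η : ℝ, 0 < η → ∃ N : ℕ, ∀ n ≥ N, ∀ p : ℝ, (1 + ε) / n ≤ p → p ≤ 1 →
      ∀ x : Fin n → ℝ, Function.Injective x →
        1 - η ≤ prob n p (fun G => ∃ U : Finset (Fin n), c * n ≤ U.card ∧ StronglyReconstructible x G U) := by
    intro η hη
    obtain ⟨N, hN⟩ := h η hη
    refine ⟨N + 1, fun n hn p hp hp1 x hx => ?_⟩
    have hn0 : (0 : ℝ) < n := by exact_mod_cast (show 0 < n by omega)
    refine (hN n (by omega) x hx).trans ?_
    have hm0 : 0 ≤ min ε (1 / 2) := le_min hε.le (by norm_num)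
    have hle : (1 + min ε (1 / 2)) / n ≤ p :=
      (div_le_div_of_nonneg_right (by linarith [min_le_left ε (1 / 2)]) hn0.le).trans hp
    exact N943.RC.monoP n _ p (fun G => ∃ U : Finset (Fin n), c * n ≤ U.card ∧ J4H99.RL.Rec x G U)
      (by positivity) hle hp1 (by
        rintro G G' hGG ⟨U, hU1, hU2⟩
        exact ⟨U, hU1, fun f hf => hU2 f fun a b hab => hf a b (hGG hab)⟩)
  refine ⟨c, hc, key, fun x hx => ?_⟩
  rw [Metric.tendsto_atTop]
  intro η hη
  obtain ⟨N, hN⟩ := key (η / 2) (by positivity)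
  obtain ⟨N', hN'⟩ := exists_nat_gt (1 + ε)
  refine ⟨N + N' + 1, fun n hn => ?_⟩
  have hn0 : (0 : ℝ) < n := by exact_mod_cast (show 0 < n by omega)
  have hnε : 1 + ε ≤ n := by
    have : (N' : ℝ) ≤ n := by exact_mod_cast (show N' ≤ n by omega)
    linarith
  have hp1 : (1 + ε) / n ≤ 1 := by rw [div_le_one hn0]; exact hnε
  have hp0 : 0 ≤ (1 + ε) / n := by positivity
  have h1 := hN n (by omega) ((1 + ε) / n) le_rfl hp1 (x n) (hx n)
  have h2 : prob n ((1 + ε) / n) (fun G => ∃ U : Finset (Fin n), c * n ≤ U.card ∧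
      StronglyReconstructible (x n) G U) ≤ prob n ((1 + ε) / n) (fun G =>
      ∃ U : Finset (Fin n), c * n ≤ U.card ∧ Reconstructible (x n) G U) := by
    refine Pool.Agent.R980.gnp_mono hp0 hp1 ?_
    rintro G ⟨U, hU1, hU2⟩
    exact ⟨U, hU1, fun f _ hf => hU2 f hf⟩
  have h3 : prob n ((1 + ε) / n) (fun G => ∃ U : Finset (Fin n), c * n ≤ U.card ∧
      Reconstructible (x n) G U) ≤ 1 := Pool.Agent.R980.gnp_le_one hp0 hp1 _
  rw [Real.dist_eq, abs_lt]
  constructor <;> linarith

end Pool.Agent.Results.MP_730fda_pr.Supercritical
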